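import Pool.Agent.Work.MP_cf02e9_co.Duality

/-!
Analysis of the cyclic-shift strategy.
-/

namespace Pool.Agent.Work.MP_cf02e9_co

open Equiv Finset

variable {n : ℕ}

/-- number of exceedances -/
def exc (π : Perm (Fin n)) : ℕ := (univ.filter (fun i => i < π i)).card

section formPerm

variable (A : Finset (Fin n))

lemma sort_getElem_lt {j k : ℕ} (hjk : j < k) (hk : k < (A.sort (· ≤ ·)).length) :
    (A.sort (· ≤ ·))[j] < (A.sort (· ≤ ·))[k] :=
  (Finset.sortedLT_sort A).strictMono_get (show (⟨j, by omega⟩ : Fin _) < ⟨k, hk⟩ from hjk)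

lemma formPerm_le {x y : Fin n} (hx : x ∈ A) (hy : y ∈ A) (hxy : x < y) :
    ((A.sort (· ≤ ·)).formPerm) x ≤ y := by
  obtain ⟨j, hj, rfl⟩ := List.getElem_of_mem ((Finset.mem_sort (· ≤ ·)).2 hx)
  obtain ⟨k, hk, rfl⟩ := List.getElem_of_mem ((Finset.mem_sort (· ≤ ·)).2 hy)
  have hjk : j < k := by
    by_contra hcon
    rcases lt_or_eq_of_le (not_lt.1 hcon) with h | h
    · exact absurd (sort_getElem_lt A h hj) (not_lt.2 hxy.le)
    · subst h; exact lt_irrefl _ hxy
  rw [List.formPerm_apply_lt_getElem _ (Finset.sort_nodup A _) j (by omega)]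
  rcases lt_or_eq_of_le (show j + 1 ≤ k from hjk) with h | h
  · exact (sort_getElem_lt A h hk).le
  · subst h; exact le_rfl

lemma formPerm_max {x : Fin n} (hx : x ∈ A) (hmax : ∀ y ∈ A, y ≤ x) {z : Fin n} (hz : z ∈ A) :
    ((A.sort (· ≤ ·)).formPerm) x ≤ z := by
  obtain ⟨j, hj, rfl⟩ := List.getElem_of_mem ((Finset.mem_sort (· ≤ ·)).2 hx)
  obtain ⟨k, hk, rfl⟩ := List.getElem_of_mem ((Finset.mem_sort (· ≤ ·)).2 hz)
  have hlast : j + 1 = (A.sort (· ≤ ·)).length := by
    by_contra hcon
    have h1 : j + 1 < (A.sort (· ≤ ·)).length := by omega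
    have h2 := hmax _ ((Finset.mem_sort (· ≤ ·)).1 (List.getElem_mem h1))
    exact absurd (sort_getElem_lt A (Nat.lt_succ_self j) h1) (not_lt.2 h2)
  rw [List.formPerm_apply_getElem _ (Finset.sort_nodup A _) j hj]
  have h0 : (j + 1) % (A.sort (· ≤ ·)).length = 0 := by rw [hlast, Nat.mod_self]
  simp only [h0]
  rcases Nat.eq_zero_or_pos k with h | h
  · subst h; exact le_rfl
  · exact (sort_getElem_lt A h hk).le

end formPerm

/-- One cyclic shift removes an exceedance. -/
lemma exc_shift {π : Perm (Fin n)} (hπ : π ≠ 1) :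
    exc (((univ.filter (fun i => π i ≠ i)).sort (· ≤ ·)).formPerm * π) + 1 ≤ exc π := by
  classical
  set A := univ.filter (fun i => π i ≠ i) with hA
  set c := (A.sort (· ≤ ·)).formPerm with hc
  have hmemA : ∀ i, i ∈ A ↔ π i ≠ i := fun i => by rw [hA, Finset.mem_filter]; simp
  have hπA : ∀ i, i ∈ A → π i ∈ A := by
    intro i hi
    rw [hmemA] at hi ⊢
    exact fun h => hi (π.injective h)
  have hne : A.Nonempty := by
    by_contra hcon
    rw [Finset.not_nonempty_iff_eq_empty] at hcon
    apply hπ
    ext i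
    by_contra h
    have : i ∈ A := (hmemA i).2 (fun h' => h (by rw [h']; rfl))
    rw [hcon] at this
    exact absurd this (Finset.notMem_empty _)
  set m := A.max' hne with hm
  have hmA : m ∈ A := Finset.max'_mem _ _
  have hmax : ∀ y ∈ A, y ≤ m := fun y hy => Finset.le_max' _ _ hy
  set i0 := π⁻¹ m with hi0
  have hπi0 : π i0 = m := by rw [hi0]; simp
  have hi0A : i0 ∈ A := by
    rw [hmemA, hπi0]
    intro h
    have h1 := (hmemA m).1 hmA
    apply h1
    conv_lhs => rw [h]
    exact hπi0
  have hi0lt : i0 < m := by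
    rcases lt_or_eq_of_le (hmax i0 hi0A) with h | h
    · exact h
    · have h1 := (hmemA i0).1 hi0A
      rw [hπi0] at h1
      exact absurd h.symm h1
  have hsub : (univ.filter (fun i => i < (c * π) i)) ⊆
      (univ.filter (fun i => i < π i)).erase i0 := by
    intro i hi
    rw [Finset.mem_filter] at hi
    have hi1 : i < c (π i) := hi.2
    rw [Finset.mem_erase, Finset.mem_filter]
    have hiA : i ∈ A := by
      by_contra hcon
      have h1 : π i = i := by
        by_contra h; exact hcon ((hmemA i).2 h)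
      rw [h1, hc, List.formPerm_apply_of_notMem] at hi1
      · exact lt_irrefl _ hi1
      · intro h; exact hcon ((Finset.mem_sort (· ≤ ·)).1 h)
    have hne0 : i ≠ i0 := by
      rintro rfl
      rw [hπi0] at hi1
      exact absurd (formPerm_max A hmA hmax hiA) (not_le.2 hi1)
    refine ⟨hne0, Finset.mem_univ _, ?_⟩
    by_contra hcon
    have hlt : π i < i := lt_of_le_of_ne (not_lt.1 hcon) ((hmemA i).1 hiA)
    exact absurd (formPerm_le A (hπA i hiA) hiA hlt) (not_le.2 hi1)
  have h1 := Finset.card_le_card hsub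
  have hi0mem : i0 ∈ univ.filter (fun i => i < π i) := by
    rw [Finset.mem_filter]
    exact ⟨Finset.mem_univ _, by rw [hπi0]; exact hi0lt⟩
  rw [Finset.card_erase_of_mem hi0mem] at h1
  have h2 : 0 < (univ.filter (fun i => i < π i)).card := Finset.card_pos.2 ⟨i0, hi0mem⟩
  unfold exc
  omega

lemma guess_B_succ (σ : Perm (Fin n)) (t : ℕ) :
    guess (stratB n) σ (t+1) = guess (stratB n) σ t *
      ((((feedback (guess (stratB n) σ t) σ)ᶜ).sort (· ≤ ·)).formPerm)⁻¹ := by
  show (history (stratB n) σ t ++ [feedback (stratB n (history (stratB n) σ t)) σ]).foldl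
    (fun γ U => γ * ((Uᶜ).sort (· ≤ ·)).formPerm⁻¹) 1 = _
  rw [List.foldl_append]
  rfl

/-- the permutation comparing the hidden permutation and the guess -/
def cmp (σ : Perm (Fin n)) (t : ℕ) : Perm (Fin n) := (guess (stratB n) σ t)⁻¹ * σ

lemma cmp_zero (σ : Perm (Fin n)) : cmp σ 0 = σ := by
  show (1 : Perm (Fin n))⁻¹ * σ = σ
  simp

lemma cmp_succ (σ : Perm (Fin n)) (t : ℕ) :
    cmp σ (t+1) = ((univ.filter (fun i => (cmp σ t) i ≠ i)).sort (· ≤ ·)).formPerm * cmp σ t := by
  have h1 : (feedback (guess (stratB n) σ t) σ)ᶜ = univ.filter (fun i => (cmp σ t) i ≠ i) := by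
    ext i
    rw [Finset.mem_compl, mem_feedback, Finset.mem_filter]
    simp only [Finset.mem_univ, true_and, cmp, Perm.mul_apply]
    rw [not_iff_not, Perm.inv_eq_iff_eq]
    exact eq_comm
  unfold cmp at h1 ⊢
  rw [guess_B_succ, h1, mul_inv_rev, inv_inv, mul_assoc]

lemma cmp_eq_one {σ : Perm (Fin n)} {t : ℕ} : cmp σ t = 1 ↔ guess (stratB n) σ t = σ := by
  unfold cmp
  rw [inv_mul_eq_one]

/-- The cyclic-shift strategy finds `σ` within `exc σ + 1` rounds. -/
lemma solved_B {σ : Perm (Fin n)} {r : ℕ} (h : exc σ < r) : σ ∈ solved (stratB n) r := by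
  rw [mem_solved]
  by_contra hcon
  push Not at hcon
  have hall : ∀ t, t ≤ exc σ + 1 → exc (cmp σ t) + t ≤ exc σ := by
    intro t
    induction t with
    | zero => intro _; rw [cmp_zero]; rfl
    | succ t ih =>
      intro ht
      have h1 := ih (by omega)
      have h2 : cmp σ t ≠ 1 := by
        intro h3
        exact hcon t (by omega) (cmp_eq_one.1 h3)
      have h3 := exc_shift h2
      rw [← cmp_succ] at h3
      omega
  have := hall (exc σ + 1) le_rfl
  omega

/-- the mirror image of a permutation -/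
def mirror (m : ℕ) (σ : Perm (Fin (m+1))) : Perm (Fin (m+1)) :=
  Fin.revPerm * ((finRotate (m+1))⁻¹ * σ) * Fin.revPerm

lemma mirror_injective (m : ℕ) : Function.Injective (mirror m) := by
  intro σ τ h
  unfold mirror at h
  exact mul_left_cancel (mul_left_cancel (mul_right_cancel h))

lemma exc_mirror (m : ℕ) (σ : Perm (Fin (m+1))) : exc (mirror m σ) + exc σ = m := by
  classical
  set τ := (finRotate (m+1))⁻¹ * σ with hτ
  -- exceedances of the mirror image are anti-exceedances of τ
  have h1 : exc (mirror m σ) = (univ.filter (fun j => τ j < j)).card := by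
    unfold exc
    apply Finset.card_bij (fun i _ => Fin.rev i)
    · intro i hi
      rw [Finset.mem_filter] at hi ⊢
      refine ⟨Finset.mem_univ _, ?_⟩
      have h2 : i < Fin.rev (τ (Fin.rev i)) := hi.2
      rw [Fin.lt_rev_iff] at h2
      exact h2
    · intro i _ j _ h
      exact Fin.rev_injective h
    · intro j hj
      rw [Finset.mem_filter] at hj
      refine ⟨Fin.rev j, ?_, Fin.rev_rev j⟩
      rw [Finset.mem_filter]
      refine ⟨Finset.mem_univ _, ?_⟩
      show Fin.rev j < Fin.rev (τ (Fin.rev (Fin.rev j)))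
      rw [Fin.rev_rev, Fin.rev_lt_rev]
      exact hj.2
  have h2 : (univ.filter (fun j => τ j < j)).card + (univ.filter (fun j => ¬ τ j < j)).card
      = m + 1 := by
    rw [Finset.card_filter_add_card_filter_not, Finset.card_univ, Fintype.card_fin]
  have h3 : univ.filter (fun j => ¬ τ j < j) =
      insert (σ⁻¹ 0) (univ.filter (fun j => j < σ j)) := by
    ext j
    rw [Finset.mem_filter, Finset.mem_insert, Finset.mem_filter, not_lt]
    simp only [Finset.mem_univ, true_and]
    have hσ : σ j = finRotate (m+1) (τ j) := by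
      rw [hτ]; simp
    by_cases hlast : τ j = Fin.last m
    · rw [hlast, finRotate_last] at hσ
      constructor
      · intro _
        left
        rw [Perm.eq_inv_iff_eq]
        exact hσ
      · intro _
        rw [hlast]; exact Fin.le_last _
    · have h4 : ((σ j : Fin (m+1)) : ℕ) = (τ j : ℕ) + 1 := by
        rw [hσ]; exact coe_finRotate_of_ne_last hlast
      constructor
      · intro h
        right
        rw [Fin.lt_def, h4]
        have : (j : ℕ) ≤ (τ j : ℕ) := h
        omega
      · rintro (h | h)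
        · exfalso
          have h5 : σ j = 0 := by rw [h]; simp
          rw [h5] at h4
          simp at h4
        · rw [Fin.le_def]
          rw [Fin.lt_def, h4] at h
          omega
  have h4 : (σ⁻¹ 0) ∉ (univ.filter (fun j => j < σ j)) := by
    rw [Finset.mem_filter]
    rintro ⟨_, h⟩
    simp at h
  rw [h3, Finset.card_insert_of_notMem h4] at h2
  rw [h1]
  unfold exc
  omega

lemma exc_lt {m : ℕ} (σ : Perm (Fin (m+1))) : exc σ < m + 1 := by
  have := exc_mirror m σ
  omega

/-- **Optimality of the cyclic-shift strategy.** -/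
theorem optimal {n : ℕ} (hn : 1 ≤ n) (S : Strategy n) (r : ℕ) :
    (solved S r).card ≤ (solved (stratB n) r).card := by
  classical
  obtain ⟨m, rfl⟩ : ∃ m, n = m + 1 := ⟨n - 1, by omega⟩
  rcases le_or_gt (m+1) r with h | h
  · apply Finset.card_le_card
    intro σ _
    exact solved_B (lt_of_lt_of_le (exc_lt σ) h)
  · have h1 := duality S (stratB (m+1)) (r := r) (r' := m + 1 - r) (by omega)
    have h2 : (univ.filter (fun σ : Perm (Fin (m+1)) => exc σ < m + 1 - r)).card ≤
        (solved (stratB (m+1)) (m+1-r)).card := by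
      apply Finset.card_le_card
      intro σ hσ
      exact solved_B (Finset.mem_filter.1 hσ).2
    have h3 : (univ.filter (fun σ : Perm (Fin (m+1)) => ¬ exc σ < m + 1 - r)).card ≤
        (solved (stratB (m+1)) r).card := by
      apply Finset.card_le_card_of_injOn (mirror m)
      · intro σ hσ
        rw [Finset.mem_coe, Finset.mem_filter] at hσ
        apply solved_B
        have := exc_mirror m σ
        have := hσ.2
        omega
      · intro σ _ τ _ h
        exact mirror_injective m h
    have h4 : (univ.filter (fun σ : Perm (Fin (m+1)) => exc σ < m + 1 - r)).card +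
        (univ.filter (fun σ : Perm (Fin (m+1)) => ¬ exc σ < m + 1 - r)).card =
        (m+1).factorial := by
      rw [Finset.card_filter_add_card_filter_not, Finset.card_univ, Fintype.card_perm,
        Fintype.card_fin]
    omega

end Pool.Agent.Work.MP_cf02e9_co
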