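import Mathlib

/-!
Permutation Wordle: definitions.
-/

namespace Pool.Agent.Work.MP_cf02e9_co

open Equiv

/-- A strategy gives the next guess as a function of the list of the feedback sets of the earlier
rounds, in chronological order. -/
abbrev Strategy (n : ℕ) : Type := List (Finset (Fin n)) → Perm (Fin n)

/-- The feedback: the set of positions where the guess agrees with the hidden permutation. -/
def feedback {n : ℕ} (γ σ : Perm (Fin n)) : Finset (Fin n) :=
  Finset.univ.filter (fun i => γ i = σ i)

/-- The feedback sets of the first `t` rounds when `σ` is the hidden permutation. -/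
def history {n : ℕ} (S : Strategy n) (σ : Perm (Fin n)) : ℕ → List (Finset (Fin n))
  | 0 => []
  | t + 1 => history S σ t ++ [feedback (S (history S σ t)) σ]

/-- The guess made in round `t + 1` when `σ` is the hidden permutation. -/
def guess {n : ℕ} (S : Strategy n) (σ : Perm (Fin n)) (t : ℕ) : Perm (Fin n) :=
  S (history S σ t)

/-- The hidden permutations that the strategy guesses within its first `r` rounds. -/
def solved {n : ℕ} (S : Strategy n) (r : ℕ) : Finset (Perm (Fin n)) :=
  Finset.univ.filter (fun σ => ∃ t < r, guess S σ t = σ)

/-- The probability `P_r(S)` that `S` wins within its first `r` guesses. -/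
def winProb {n : ℕ} (S : Strategy n) (r : ℕ) : ℚ :=
  (solved S r).card / (n.factorial : ℚ)

/-- The cyclic-shift strategy `B`. Its first guess is the identity. After a guess `γ` with feedback
`U`, let `a_1 < ... < a_l` be the positions not in `U`. Here
`((Uᶜ).sort).formPerm` is the permutation of the positions fixing `U`, with `a_j ↦ a_{j+1}` for
`j < l` and `a_l ↦ a_1`, so the next guess has the same entries as `γ` on `U`, the entry
`γ a_{j-1}` at `a_j` for `j > 1`, and the entry `γ a_l` at `a_1`. -/
def stratB (n : ℕ) : Strategy n := fun h =>
  h.foldl (fun γ U => γ * ((Uᶜ).sort (· ≤ ·)).formPerm⁻¹) 1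

end Pool.Agent.Work.MP_cf02e9_co
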