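import Pool.Agent.Work.MP_cf02e9_co.Defs

/-!
The duality inequality: for any two strategies `S`, `S'` and `r + r' ≤ n`, the number of
permutations solved by `S` within `r` rounds plus the number solved by `S'` within `r'` rounds is
at most `n!`.
-/

namespace Pool.Agent.Work.MP_cf02e9_co

open Equiv Finset Polynomial

variable {n : ℕ}

lemma mem_solved {S : Strategy n} {r : ℕ} {σ : Perm (Fin n)} :
    σ ∈ solved S r ↔ ∃ t < r, guess S σ t = σ := by
  simp [solved]

lemma mem_feedback {γ σ : Perm (Fin n)} {i : Fin n} : i ∈ feedback γ σ ↔ γ i = σ i := by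
  simp [feedback]

/-- feedback of round `t + 1` -/
def fb (S : Strategy n) (σ : Perm (Fin n)) (t : ℕ) : Finset (Fin n) := feedback (guess S σ t) σ

lemma history_eq {S : Strategy n} {σ τ : Perm (Fin n)} : ∀ t : ℕ,
    (∀ s < t, fb S σ s = fb S τ s) → history S σ t = history S τ t := by
  intro t
  induction t with
  | zero => intro _; rfl
  | succ t ih =>
    intro h
    have h1 := ih (fun s hs => h s (by omega))
    have h2 := h t (by omega)
    unfold fb guess at h2
    show history S σ t ++ [feedback (S (history S σ t)) σ] =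
      history S τ t ++ [feedback (S (history S τ t)) τ]
    rw [h2, h1]

lemma guess_eq {S : Strategy n} {σ τ : Perm (Fin n)} {t : ℕ}
    (h : ∀ s < t, fb S σ s = fb S τ s) : guess S σ t = guess S τ t := by
  unfold guess
  rw [history_eq t h]

/-- the rounds `t + 1 ≤ r` in which position `i` is wrong and has been wrong before -/
def todo (S : Strategy n) (r : ℕ) (σ : Perm (Fin n)) (i : Fin n) : Finset ℕ :=
  (range r).filter (fun t => ∀ s ≤ t, guess S σ s i ≠ σ i)

lemma mem_todo {S : Strategy n} {r : ℕ} {σ : Perm (Fin n)} {i : Fin n} {t : ℕ} :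
    t ∈ todo S r σ i ↔ t < r ∧ ∀ s ≤ t, guess S σ s i ≠ σ i := by
  simp [todo]

/-- the polynomial attached to position `i` -/
noncomputable def pol (S : Strategy n) (r : ℕ) (σ : Perm (Fin n)) (i : Fin n) : Polynomial ℝ :=
  ∏ t ∈ todo S r σ i, (X - C (((guess S σ t i : Fin n) : ℕ) : ℝ))

lemma natDegree_pol (S : Strategy n) (r : ℕ) (σ : Perm (Fin n)) (i : Fin n) :
    (pol S r σ i).natDegree = (todo S r σ i).card := by
  unfold pol
  rw [Polynomial.natDegree_prod_of_monic]
  · rw [Finset.sum_congr rfl (fun t _ => natDegree_X_sub_C _), Finset.sum_const, smul_eq_mul,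
      mul_one]
  · intro t _
    exact monic_X_sub_C _

lemma natDegree_pol_lt {S : Strategy n} {r : ℕ} {σ : Perm (Fin n)} (hσ : σ ∈ solved S r)
    (i : Fin n) : (pol S r σ i).natDegree < r := by
  rw [natDegree_pol]
  obtain ⟨t0, ht0, hg⟩ := mem_solved.1 hσ
  have h1 : todo S r σ i ⊆ (range r).erase t0 := by
    intro t ht
    rw [mem_todo] at ht
    rw [Finset.mem_erase, Finset.mem_range]
    refine ⟨?_, ht.1⟩
    rintro rfl
    exact ht.2 t le_rfl (by rw [hg])
  have h2 := Finset.card_le_card h1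
  rw [Finset.card_erase_of_mem (Finset.mem_range.2 ht0), Finset.card_range] at h2
  omega

/-- the function on permutations attached to a solved permutation -/
noncomputable def F (S : Strategy n) (r : ℕ) (σ : Perm (Fin n)) (τ : Perm (Fin n)) : ℝ :=
  ∏ i, (pol S r σ i).eval (((τ i : Fin n) : ℕ) : ℝ)

lemma cast_inj {a b : Fin n} : (((a : Fin n) : ℕ) : ℝ) = ((b : Fin n) : ℕ) ↔ a = b := by
  rw [Nat.cast_inj, Fin.val_inj]

lemma F_ne_zero_iff {S : Strategy n} {r : ℕ} {σ τ : Perm (Fin n)} :
    F S r σ τ ≠ 0 ↔ ∀ i, ∀ t ∈ todo S r σ i, guess S σ t i ≠ τ i := by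
  unfold F pol
  rw [Finset.prod_ne_zero_iff]
  constructor
  · intro h i t ht heq
    have h1 := h i (Finset.mem_univ _)
    rw [Polynomial.eval_prod, Finset.prod_ne_zero_iff] at h1
    apply h1 t ht
    rw [eval_sub, eval_X, eval_C, heq, sub_self]
  · intro h i _
    rw [Polynomial.eval_prod, Finset.prod_ne_zero_iff]
    intro t ht h1
    rw [eval_sub, eval_X, eval_C, sub_eq_zero, cast_inj] at h1
    exact h i t ht h1.symm

lemma F_self (S : Strategy n) (r : ℕ) (σ : Perm (Fin n)) : F S r σ σ ≠ 0 := by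
  rw [F_ne_zero_iff]
  intro i t ht
  exact (mem_todo.1 ht).2 t le_rfl

/-- triangularity -/
lemma triangular {S : Strategy n} {r : ℕ} {σ τ : Perm (Fin n)} (hσ : σ ∈ solved S r)
    (hne : σ ≠ τ) (hF : F S r σ τ ≠ 0) :
    ∃ t < r, (∀ s < t, fb S σ s = fb S τ s) ∧ (fb S τ t).card < (fb S σ t).card := by
  rw [F_ne_zero_iff] at hF
  obtain ⟨t0, ht0, hg⟩ := mem_solved.1 hσ
  -- a round with different feedback
  have hex : ∃ t, t < r ∧ fb S σ t ≠ fb S τ t := by
    by_contra hcon
    push Not at hcon
    have h1 := guess_eq (S := S) (σ := σ) (τ := τ) (t := t0) (fun s hs => hcon s (by omega))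
    have h2 := hcon t0 ht0
    apply hne
    ext i
    have h3 : i ∈ fb S σ t0 := by
      unfold fb; rw [mem_feedback, hg]
    rw [h2] at h3
    unfold fb at h3
    rw [mem_feedback, ← h1, hg] at h3
    rw [h3]
  classical
  set t := Nat.find hex with ht
  have hts := Nat.find_spec hex
  rw [← ht] at hts
  have hbefore : ∀ s < t, fb S σ s = fb S τ s := by
    intro s hs
    by_contra hcon
    exact Nat.find_min hex hs ⟨by omega, hcon⟩
  refine ⟨t, hts.1, hbefore, ?_⟩
  have hgt := guess_eq hbefore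
  apply Finset.card_lt_card
  rw [Finset.ssubset_iff_subset_ne]
  refine ⟨?_, fun h => hts.2 h.symm⟩
  intro i hi
  have hi' : guess S τ t i = τ i := mem_feedback.1 hi
  show i ∈ feedback (guess S σ t) σ
  rw [mem_feedback]
  by_contra hcon
  have h1 : t ∉ todo S r σ i := by
    intro h2
    apply hF i t h2
    rw [hgt]; exact hi'
  rw [mem_todo] at h1
  push Not at h1
  obtain ⟨s, hs, hs2⟩ := h1 hts.1
  have hst : s < t := by
    rcases lt_or_eq_of_le hs with h | h
    · exact h
    · exact absurd (h ▸ hs2) hcon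
  have h3 : i ∈ fb S σ s := mem_feedback.2 hs2
  rw [hbefore s hst] at h3
  have h4 : guess S τ s i = τ i := mem_feedback.1 h3
  have h5 := guess_eq (S := S) (σ := σ) (τ := τ) (t := s) (fun s' hs' => hbefore s' (by omega))
  rw [← h5, hs2] at h4
  apply hcon
  rw [hgt, hi', h4]

/-- linear independence -/
lemma linInd (S : Strategy n) (r : ℕ) :
    LinearIndependent ℝ (fun σ : {σ // σ ∈ solved S r} => F S r σ.1) := by
  classical
  rw [Fintype.linearIndependent_iff]
  intro c hc
  by_contra hcon
  push Not at hcon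
  obtain ⟨σ1, hσ1⟩ := hcon
  set T : Finset {σ // σ ∈ solved S r} := Finset.univ.filter (fun σ => c σ ≠ 0) with hT
  have hTne : T.Nonempty := ⟨σ1, by rw [hT, Finset.mem_filter]; exact ⟨Finset.mem_univ _, hσ1⟩⟩
  set key : {σ // σ ∈ solved S r} → Lex (Fin r → ℕ) := fun σ =>
    toLex (fun t : Fin r => (fb S σ.1 t).card) with hkey
  obtain ⟨σ0, hσ0, hmax⟩ := Finset.exists_max_image T key hTne
  rw [hT, Finset.mem_filter] at hσ0
  have h1 := congrFun hc σ0.1
  rw [Finset.sum_apply, Finset.sum_eq_single σ0] at h1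
  · simp only [Pi.smul_apply, smul_eq_mul, Pi.zero_apply, mul_eq_zero] at h1
    rcases h1 with h1 | h1
    · exact hσ0.2 h1
    · exact F_self S r σ0.1 h1
  · intro σ _ hne
    simp only [Pi.smul_apply, smul_eq_mul, mul_eq_zero]
    by_contra hcon
    push Not at hcon
    have hσT : σ ∈ T := by rw [hT, Finset.mem_filter]; exact ⟨Finset.mem_univ _, hcon.1⟩
    have h2 := hmax σ hσT
    obtain ⟨t, ht, hbefore, hlt⟩ := triangular σ.2 (fun h => hne (Subtype.ext h)) hcon.2
    have h3 : key σ0 < key σ := by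
      refine ⟨⟨t, ht⟩, ?_, ?_⟩
      · intro j hj
        have hj' : (j : ℕ) < t := hj
        show (fb S σ0.1 j).card = (fb S σ.1 j).card
        rw [hbefore j hj']
      · exact hlt
    exact absurd h2 (not_le.2 h3)
  · intro h; exact absurd (Finset.mem_univ _) h

/-- an alternating sum that vanishes -/
lemma alt_sum_zero (q : Fin n → Polynomial ℝ) (hn : 0 < n) (hq : ∀ i, (q i).natDegree < n - 1) :
    ∑ π : Perm (Fin n), ((Perm.sign π : ℤ) : ℝ) *
      ∏ i, (q i).eval (((π i : Fin n) : ℕ) : ℝ) = 0 := by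
  set M : Matrix (Fin n) (Fin n) ℝ := fun j i => (q i).eval ((j : ℕ) : ℝ) with hM
  have h1 : M.det = ∑ π : Perm (Fin n), ((Perm.sign π : ℤ) : ℝ) *
      ∏ i, (q i).eval (((π i : Fin n) : ℕ) : ℝ) := by
    rw [Matrix.det_apply']
  rw [← h1]
  set V : Matrix (Fin n) (Fin n) ℝ := fun j e => ((j : ℕ) : ℝ) ^ (e : ℕ) with hV
  set K : Matrix (Fin n) (Fin n) ℝ := fun e i => (q i).coeff (e : ℕ) with hK
  have h2 : M = V * K := by
    ext j i
    rw [Matrix.mul_apply]
    show (q i).eval ((j : ℕ) : ℝ) = ∑ e : Fin n, ((j : ℕ) : ℝ) ^ (e : ℕ) * (q i).coeff (e : ℕ)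
    rw [Polynomial.eval_eq_sum_range' (n := n) (by have := hq i; omega), Finset.sum_range]
    exact Finset.sum_congr rfl (fun e _ => mul_comm _ _)
  rw [h2, Matrix.det_mul]
  have h3 : K.det = 0 := by
    apply Matrix.det_eq_zero_of_row_eq_zero (⟨n - 1, by omega⟩ : Fin n)
    intro i
    exact Polynomial.coeff_eq_zero_of_natDegree_lt (hq i)
  rw [h3, mul_zero]

lemma orth {S S' : Strategy n} {r r' : ℕ} (hr : r + r' ≤ n) {σ τ : Perm (Fin n)}
    (hσ : σ ∈ solved S r) (hτ : τ ∈ solved S' r') :
    ∑ π : Perm (Fin n), F S r σ π * (((Perm.sign π : ℤ) : ℝ) * F S' r' τ π) = 0 := by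
  have hr0 : 0 < r := by
    obtain ⟨t, ht, _⟩ := mem_solved.1 hσ
    omega
  have hr0' : 0 < r' := by
    obtain ⟨t, ht, _⟩ := mem_solved.1 hτ
    omega
  rw [← alt_sum_zero (fun i => pol S r σ i * pol S' r' τ i) (by omega) (by
    intro i
    have h1 := natDegree_pol_lt hσ i
    have h2 := natDegree_pol_lt hτ i
    have h3 := Polynomial.natDegree_mul_le (p := pol S r σ i) (q := pol S' r' τ i)
    omega)]
  apply Finset.sum_congr rfl
  intro π _
  have h1 : ∏ i, (pol S r σ i * pol S' r' τ i).eval (((π i : Fin n) : ℕ) : ℝ) =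
      F S r σ π * F S' r' τ π := by
    unfold F
    rw [← Finset.prod_mul_distrib]
    exact Finset.prod_congr rfl (fun i _ => Polynomial.eval_mul)
  rw [h1]
  ring

/-- The duality inequality. -/
theorem duality (S S' : Strategy n) {r r' : ℕ} (hr : r + r' ≤ n) :
    (solved S r).card + (solved S' r').card ≤ n.factorial := by
  classical
  set v : {σ // σ ∈ solved S r} → (Perm (Fin n) → ℝ) := fun σ => F S r σ.1 with hv
  set w : {τ // τ ∈ solved S' r'} → (Perm (Fin n) → ℝ) := fun τ π =>
    ((Perm.sign π : ℤ) : ℝ) * F S' r' τ.1 π with hw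
  have hvI : LinearIndependent ℝ v := linInd S r
  have hwI : LinearIndependent ℝ w := by
    have h1 := linInd S' r'
    rw [Fintype.linearIndependent_iff] at h1 ⊢
    intro c hc
    apply h1 c
    funext π
    have h2 := congrFun hc π
    rw [Finset.sum_apply] at h2 ⊢
    simp only [hw, Pi.smul_apply, smul_eq_mul, Pi.zero_apply] at h2 ⊢
    have h3 : ((Perm.sign π : ℤ) : ℝ) ≠ 0 := by
      rcases Int.units_eq_one_or (Perm.sign π) with h | h <;> simp [h]
    have h4 : ((Perm.sign π : ℤ) : ℝ) * ∑ τ, c τ * F S' r' τ.1 π = 0 := by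
      rw [← h2, Finset.mul_sum]
      exact Finset.sum_congr rfl (fun τ _ => by ring)
    exact (mul_eq_zero.1 h4).resolve_left h3
  have horth : ∀ x ∈ Submodule.span ℝ (Set.range v), ∀ y ∈ Submodule.span ℝ (Set.range w),
      ∑ π, x π * y π = 0 := by
    intro x hx y hy
    induction hx using Submodule.span_induction with
    | mem x hx =>
      obtain ⟨σ, rfl⟩ := hx
      induction hy using Submodule.span_induction with
      | mem y hy =>
        obtain ⟨τ, rfl⟩ := hy
        exact orth hr σ.2 τ.2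
      | zero => simp
      | add y z _ _ hy hz =>
        simp only [Pi.add_apply, mul_add, Finset.sum_add_distrib, hy, hz, add_zero]
      | smul a y _ hy =>
        simp only [Pi.smul_apply, smul_eq_mul]
        calc _ = a * ∑ π, v σ π * y π := by
              rw [Finset.mul_sum]; exact Finset.sum_congr rfl (fun π _ => by ring)
          _ = 0 := by rw [hy, mul_zero]
    | zero => simp
    | add x z _ _ hx hz =>
      simp only [Pi.add_apply, add_mul, Finset.sum_add_distrib, hx, hz, add_zero]
    | smul a x _ hx =>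
      simp only [Pi.smul_apply, smul_eq_mul]
      calc _ = a * ∑ π, x π * y π := by
            rw [Finset.mul_sum]; exact Finset.sum_congr rfl (fun π _ => by ring)
        _ = 0 := by rw [hx, mul_zero]
  have hdisj : Disjoint (Submodule.span ℝ (Set.range v)) (Submodule.span ℝ (Set.range w)) := by
    rw [Submodule.disjoint_def]
    intro x hx hy
    have h1 := horth x hx x hy
    have h2 := (Finset.sum_eq_zero_iff_of_nonneg (fun π _ => mul_self_nonneg (x π))).1 h1
    funext π
    exact mul_self_eq_zero.1 (h2 π (Finset.mem_univ _))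
  have hI := hvI.sum_type hwI hdisj
  have hcard := hI.fintype_card_le_finrank
  rw [Fintype.card_sum, Fintype.card_coe, Fintype.card_coe, Module.finrank_fintype_fun_eq_card,
    Fintype.card_perm, Fintype.card_fin] at hcard
  exact hcard

end Pool.Agent.Work.MP_cf02e9_co
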